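import Pool.Agent.X242.DR8

/-!
# Mixed signature characters of real quadratic fields: derivatives at `0` as limits of sums over ideals

`F` is a real quadratic field, `K/F`, `S`, `v_1`, `v_2`, `v`, `χ`, `k = ℚ(χ)` and `U_{v,S}` are as in the conjecture.

**Rational weights.** Let `C_1(γ) = -(γ_E + iγ)`, with Euler's constant `γ_E`. Fix `γ > π/2` and rational numbers `ρ_N(n)`,
for every `N` almost all of them zero, with
`|ρ_N(n) - Re (N e^{iγ log n / N} / (C_1(γ) Γ(1 + log n / N)))| ≤ 1 / (N n²)`. They do not depend on `F`, `K`, `S`, `χ`. Put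
`x_N = ∑_𝔞 ρ_N(N 𝔞) χ(σ_𝔞) ∈ k`, a finite sum over ideals prime to `S`.

1. `x_N = L_S'(χ, 0) + O(1/N)`; more generally `τ(x_N) = L_S'(χ^τ, 0) + O(1/N)` for all embeddings `τ` of `k`.
2. `T ∑_𝔞 χ(σ_𝔞) / Γ(1 + log N(𝔞) / T) = -γ_E L_S'(χ, 0) + O(1/T)`, an absolutely convergent sum over all the ideals
   prime to `S` without any rotation of the terms.
3. Let `u ∈ k ⊗ K^×`. Then `L_S'(χ, 0) = log |u|_v` if and only if `x_N → log |u|_v`, and also if and only if the sums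
   in 2 tend to `-γ_E log |u|_v`.
4. So the conjecture for `F`, `K`, `S`, `v`, `χ` is equivalent to: for some `u` in `(k ⊗ U_{v,S})^{χ^{-1}}` the elements
   `x_N` of `k` tend to `log |u|_v`; and to: for some such `u` the sums in 2 tend to `-γ_E log |u|_v`.

The classical facts on the `L`-functions which are used as hypotheses: they are entire (Hecke) and vanish at `0`.
-/

set_option autoImplicit false

namespace Pool.Agent.Results.MP_c49e96_nt.CharacterSumsOverIdeals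

open Filter Topology NumberField IsDedekindDomain Pool.Agent.X242.DR Asymptotics
open scoped TensorProduct

/-- The places of a number field: the archimedean places and the maximal ideals. -/
abbrev Place (F : Type) [Field F] [NumberField F] : Type :=
  InfinitePlace F ⊕ HeightOneSpectrum (𝓞 F)

/-- The absolute value at a place: the usual one at an archimedean place, `N(𝔓)^{-ord_𝔓(x)}` at a finite place. -/
noncomputable def absV {F : Type} [Field F] [NumberField F] : Place F → F → ℝ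
  | .inl w, x => w x
  | .inr 𝔓, x => NumberField.HeightOneSpectrum.adicAbv F 𝔓 x

section

variable {F K : Type} [Field F] [NumberField F] [Field K] [NumberField K] [Algebra F K]

/-- The place `Q` of `K` lies over the place `q` of `F`. -/
def LiesOver : Place K → Place F → Prop
  | .inl w, .inl v => w.comap (algebraMap F K) = v
  | .inr 𝔓, .inr 𝔭 => 𝔓.asIdeal.comap (algebraMap (𝓞 F) (𝓞 K)) = 𝔭.asIdeal
  | _, _ => False

/-- `F` is real quadratic, `K/F` is nontrivial, `v₁` stays real, `v₂` becomes complex, `S` contains the infinite places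
and the places which are ramified in `K`, and the place `v` is above `v₁`. -/
structure IsData (S : Finset (Place F)) (v₁ v₂ : InfinitePlace F) (v : InfinitePlace K) : Prop where
  quad : Module.finrank ℚ F = 2
  real : ∀ u : InfinitePlace F, u.IsReal
  ne : v₁ ≠ v₂
  nontriv : 1 < Module.finrank F K
  stays : ∀ w : InfinitePlace K, w.comap (algebraMap F K) = v₁ → w.IsReal
  complex : ∀ w : InfinitePlace K, w.comap (algebraMap F K) = v₂ → w.IsComplex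
  arch : ∀ u : InfinitePlace F, Sum.inl u ∈ S
  ram : ∀ 𝔭 : HeightOneSpectrum (𝓞 F), Sum.inr 𝔭 ∉ S → ∀ 𝔓 : HeightOneSpectrum (𝓞 K),
    LiesOver (F := F) (K := K) (.inr 𝔓) (.inr 𝔭) →
      ¬ Ideal.map (algebraMap (𝓞 F) (𝓞 K)) 𝔭.asIdeal ≤ 𝔓.asIdeal ^ 2
  above : v.comap (algebraMap F K) = v₁

/-- `𝔞` is a nonzero ideal which is prime to the finite places in `S`. -/
def PrimeTo (S : Finset (Place F)) (𝔞 : Ideal (𝓞 F)) : Prop :=
  𝔞 ≠ ⊥ ∧ ∀ 𝔭 : HeightOneSpectrum (𝓞 F), Sum.inr 𝔭 ∈ S → ¬ 𝔞 ≤ 𝔭.asIdeal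

/-- `A` is the Artin map `𝔞 ↦ σ_𝔞`. -/
structure IsArtinMap (S : Finset (Place F)) (A : Ideal (𝓞 F) → (K ≃ₐ[F] K)) : Prop where
  mul : ∀ 𝔞 𝔟 : Ideal (𝓞 F), PrimeTo S 𝔞 → PrimeTo S 𝔟 → A (𝔞 * 𝔟) = A 𝔞 * A 𝔟
  frob : ∀ 𝔭 : HeightOneSpectrum (𝓞 F), Sum.inr 𝔭 ∉ S → ∀ 𝔓 : HeightOneSpectrum (𝓞 K),
    LiesOver (F := F) (K := K) (.inr 𝔓) (.inr 𝔭) → ∀ x y : 𝓞 K, (y : K) = A 𝔭.asIdeal (x : K) →
      y - x ^ (Ideal.absNorm 𝔭.asIdeal) ∈ 𝔓.asIdeal

variable (K) in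
/-- The group `U_{v,S}`. -/
def U (S : Finset (Place F)) (v₁ v₂ : InfinitePlace F) : Set Kˣ :=
  {u | (3 ≤ S.card → ∀ Q : Place K, ¬ LiesOver Q (Sum.inl v₁) → absV Q (u : K) = 1) ∧
    (S.card = 2 →
      (∀ Q Q' : Place K, LiesOver Q (Sum.inl v₂) → LiesOver Q' (Sum.inl v₂) →
        absV Q (u : K) = absV Q' (u : K)) ∧
      ∀ (Q : Place K) (q : Place F), LiesOver Q q → q ∉ S → absV Q (u : K) = 1)}

/-- The `L`-function `L_S(χ, s)` of a character: entire, the sum over the ideals prime to `S` for `Re s > 1`. -/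
structure IsLFunction (S : Finset (Place F)) (A : Ideal (𝓞 F) → (K ≃ₐ[F] K))
    (χ : (K ≃ₐ[F] K) → ℂ) (L : ℂ → ℂ) : Prop where
  entire : Differentiable ℂ L
  series : ∀ s : ℂ, 1 < s.re → HasSum (fun 𝔞 : {𝔞 : Ideal (𝓞 F) // PrimeTo S 𝔞} =>
    χ (A 𝔞.1) * ((Ideal.absNorm 𝔞.1 : ℕ) : ℂ) ^ (-s)) (L s)

/-- `χ(c) = -1` for the complex conjugations `c` at the places above `v₂`. -/
def MixedSignature {k : Type} [Field k] (v₂ : InfinitePlace F) (χ : (K ≃ₐ[F] K) →* k) : Prop :=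
  ∀ (φ : K →+* ℂ) (c : K ≃ₐ[F] K), InfinitePlace.mk (φ.comp (algebraMap F K)) = v₂ →
    ComplexEmbedding.IsConj φ c → χ c = -1

section tensor

/-- The group `k ⊗ K^×`. -/
def KT (k K : Type) [Field k] [Field K] : Type := k ⊗[ℤ] Additive Kˣ

variable {k : Type} [Field k]

noncomputable instance instAdd : AddCommGroup (KT k K) :=
  inferInstanceAs (AddCommGroup (k ⊗[ℤ] Additive Kˣ))

noncomputable instance instMod : Module k (KT k K) :=
  inferInstanceAs (Module k (k ⊗[ℤ] Additive Kˣ))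

/-- `a ⊗ u` in `k ⊗ K^×` -/
noncomputable def tens (a : k) (u : Kˣ) : KT k K :=
  TensorProduct.tmul ℤ a (Additive.ofMul u)

/-- The pairing `(a, u) ↦ ι(a) log |u|_v`. -/
noncomputable def logPair (ι : k →+* ℂ) (v : InfinitePlace K) : k →ₗ[ℤ] Additive Kˣ →ₗ[ℤ] ℂ :=
  LinearMap.mk₂ ℤ (fun a u => ι a * (Real.log (v ((Additive.toMul u : Kˣ) : K)) : ℂ))
    (fun a b u => by rw [map_add, add_mul])
    (fun c a u => by rw [map_zsmul, smul_mul_assoc])
    (fun a u w => by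
      rw [toMul_add, Units.val_mul, map_mul, Real.log_mul]
      · push_cast
        ring
      · exact (map_ne_zero v).2 (Units.ne_zero _)
      · exact (map_ne_zero v).2 (Units.ne_zero _))
    (fun c a u => by
      rw [toMul_zsmul, Units.val_zpow_eq_zpow_val, map_zpow₀, Real.log_zpow]
      push_cast
      rw [zsmul_eq_mul]
      ring)

/-- `log |·|_v` on `k ⊗ K^×`, extended `k`-linearly; `k` is a subfield of `ℂ` by `ι`. -/
noncomputable def logT (ι : k →+* ℂ) (v : InfinitePlace K) (x : KT k K) : ℂ :=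
  TensorProduct.lift (logPair ι v) x

/-- The action of `σ` on `K^×` -/
noncomputable def actU (σ : K ≃ₐ[F] K) : Additive Kˣ →ₗ[ℤ] Additive Kˣ :=
  (MonoidHom.toAdditive (Units.map (σ : K →* K))).toIntLinearMap

/-- The action of `σ` on `k ⊗ K^×`. -/
noncomputable def act (σ : K ≃ₐ[F] K) (x : KT k K) : KT k K :=
  LinearMap.lTensor k (actU σ) x

/-- `(k ⊗ U_{v,S})^{χ^{-1}}`, as a subset of `k ⊗ K^×`. -/
def Eigen (S : Finset (Place F)) (v₁ v₂ : InfinitePlace F) (χ : (K ≃ₐ[F] K) →* k) :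
    Set (KT k K) :=
  {x | x ∈ Submodule.span k (tens 1 '' U K S v₁ v₂) ∧ ∀ σ : K ≃ₐ[F] K, act σ x = (χ σ)⁻¹ • x}

end tensor

open Classical in
/-- `x_N = ∑_𝔞 ρ_N(N 𝔞) χ(σ_𝔞)`, for `ρ = ρ_N` -/
noncomputable def approx {k : Type} [Field k] (S : Finset (Place F))
    (A : Ideal (𝓞 F) → (K ≃ₐ[F] K)) (χ : (K ≃ₐ[F] K) → k) (ρ : ℕ →₀ ℚ) : k :=
  comb ρ (byNorm fun 𝔞 : Ideal (𝓞 F) => if PrimeTo S 𝔞 then χ (A 𝔞) else 0)

/-- `χ(σ_𝔞) / Γ(1 + log N(𝔞) / T)` -/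
noncomputable def term (A : Ideal (𝓞 F) → (K ≃ₐ[F] K)) (χ : (K ≃ₐ[F] K) → ℂ) (T : ℝ)
    (𝔞 : Ideal (𝓞 F)) : ℂ :=
  χ (A 𝔞) / (Real.Gamma (1 + Real.log (Ideal.absNorm 𝔞 : ℕ) / T) : ℂ)

/-- the sum over the ideals prime to `S` -/
noncomputable def charSum (S : Finset (Place F)) (A : Ideal (𝓞 F) → (K ≃ₐ[F] K))
    (χ : (K ≃ₐ[F] K) → ℂ) (T : ℝ) : ℂ :=
  ∑' 𝔞 : {𝔞 : Ideal (𝓞 F) // PrimeTo S 𝔞}, term A χ T 𝔞.1

theorem Ck_one_ne (γ : ℝ) : Ck 1 γ ≠ 0 := by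
  rw [Ck_one]
  intro h
  have h1 := congrArg Complex.re h
  simp at h1
  have := Real.one_half_lt_eulerMascheroniConstant
  rw [h1] at this
  norm_num at this

theorem main (hfin : Finite (K ≃ₐ[F] K)) {γ : ℝ} (hγ : Real.pi / 2 < γ) {ρ : ℕ → ℕ →₀ ℚ}
    (hρ : IsRational 1 γ ρ) {S : Finset (Place F)} {A : Ideal (𝓞 F) → (K ≃ₐ[F] K)}
    {k : Type} [Field k] [CharZero k] (χ : (K ≃ₐ[F] K) → k) (τ : k →+* ℂ) {L : ℂ → ℂ}
    (hL : IsLFunction S A (fun g => τ (χ g)) L) (h0 : L 0 = 0) :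
    ((fun N : ℕ => τ (approx S A χ (ρ N)) - deriv L 0) =O[atTop] (fun N : ℕ => 1 / (N : ℝ))) ∧
    (∀ T : ℝ, 0 < T → Summable fun 𝔞 : {𝔞 : Ideal (𝓞 F) // PrimeTo S 𝔞} =>
      ‖term A (fun g => τ (χ g)) T 𝔞.1‖) ∧
    ((fun T : ℝ => T * charSum S A (fun g => τ (χ g)) T + Real.eulerMascheroniConstant * deriv L 0)
      =O[atTop] (fun T : ℝ => 1 / T)) := by
  classical
  have := Fintype.ofFinite (K ≃ₐ[F] K)
  set c : Ideal (𝓞 F) → ℂ := fun 𝔞 => if PrimeTo S 𝔞 then τ (χ (A 𝔞)) else 0 with hc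
  have hc0 : c ⊥ = 0 := by
    rw [hc]
    simp only
    rw [if_neg]
    intro h2
    exact h2.1 rfl
  have hcb : ∀ 𝔞, ‖c 𝔞‖ ≤ ∑ g, ‖τ (χ g)‖ := by
    intro 𝔞
    rw [hc]
    simp only
    split_ifs
    · exact Finset.single_le_sum (f := fun g => ‖τ (χ g)‖) (fun _ _ => norm_nonneg _)
        (Finset.mem_univ _)
    · rw [norm_zero]
      exact Finset.sum_nonneg fun _ _ => norm_nonneg _
  have hser : ∀ s : ℂ, 1 < s.re → HasSum (fun 𝔞 : Ideal (𝓞 F) =>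
      c 𝔞 * ((Ideal.absNorm 𝔞 : ℕ) : ℂ) ^ (-s)) (L s) := by
    intro s hs
    have h1 := (hasSum_subtype_iff_indicator (s := {𝔞 : Ideal (𝓞 F) | PrimeTo S 𝔞})
      (f := fun 𝔞 : Ideal (𝓞 F) => τ (χ (A 𝔞)) * ((Ideal.absNorm 𝔞 : ℕ) : ℂ) ^ (-s))).1
      (hL.series s hs)
    refine h1.congr_fun fun 𝔞 => ?_
    rw [hc]
    simp only
    by_cases h2 : PrimeTo S 𝔞
    · rw [Set.indicator_of_mem (show 𝔞 ∈ {𝔞 | PrimeTo S 𝔞} from h2), if_pos h2]
    · rw [Set.indicator_of_notMem (show 𝔞 ∉ {𝔞 | PrimeTo S 𝔞} from h2), if_neg h2, zero_mul]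
  have hS := isSeries_ideals hcb hc0 (fun x _ _ => (hL.entire.analyticAt _).meromorphicAt) hser
  have hlim : Tendsto (fun s : ℂ => L s / s ^ 1) (𝓝[≠] 0) (𝓝 (deriv L 0)) := by
    have h1 := (hL.entire 0).hasDerivAt.tendsto_slope
    refine h1.congr' ?_
    filter_upwards [self_mem_nhdsWithin] with s hs
    rw [slope_def_field, h0, sub_zero, sub_zero, pow_one]
  have h1 := hS.universal (byNorm_zero hc0) 1 (deriv L 0) hγ (Ck_one_ne γ)
    (bigO_of_lim (hL.entire.analyticAt 0) hlim) hρ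
  have e1 : ∀ N, comb (ρ N) (byNorm c) = τ (approx S A χ (ρ N)) := by
    intro N
    have e2 : byNorm c = fun n => τ (byNorm (fun 𝔞 : Ideal (𝓞 F) =>
        if PrimeTo S 𝔞 then χ (A 𝔞) else 0) n) := by
      funext n
      have e3 := byNorm_map (K := F) τ.toAddMonoidHom (fun 𝔞 : Ideal (𝓞 F) =>
        if PrimeTo S 𝔞 then χ (A 𝔞) else 0) n
      refine Eq.trans ?_ e3
      congr 1
      funext 𝔞
      rw [hc]
      simp only
      split_ifs
      · simp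
      · simp
    rw [e2, comb_hom τ (ρ N)]
    rfl
  simp only [e1] at h1
  obtain ⟨h2, h3⟩ := mean_complex hcb hc0 hL.entire hser
  have e4 : ∀ (T : ℝ) (𝔞 : Ideal (𝓞 F)), PrimeTo S 𝔞 →
      c 𝔞 * (Pool.Agent.W189.ML.om (lgN 𝔞 / T) : ℂ) = term A (fun g => τ (χ g)) T 𝔞 := by
    intro T 𝔞 h𝔞
    rw [hc]
    simp only
    unfold term Pool.Agent.W189.ML.om lgN
    rw [if_pos h𝔞]
    push_cast
    exact (div_eq_mul_inv _ _).symm
  have e5 : ∀ T : ℝ, charSum S A (fun g => τ (χ g)) T =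
      ∑' 𝔞 : Ideal (𝓞 F), c 𝔞 * (Pool.Agent.W189.ML.om (lgN 𝔞 / T) : ℂ) := by
    intro T
    unfold charSum
    have e6 := tsum_subtype {𝔞 : Ideal (𝓞 F) | PrimeTo S 𝔞} (term A (fun g => τ (χ g)) T)
    refine e6.trans (tsum_congr fun 𝔞 => ?_)
    by_cases h4 : PrimeTo S 𝔞
    · rw [Set.indicator_of_mem (show 𝔞 ∈ {𝔞 | PrimeTo S 𝔞} from h4), e4 T 𝔞 h4]
    · rw [Set.indicator_of_notMem (show 𝔞 ∉ {𝔞 | PrimeTo S 𝔞} from h4), hc]
      simp only
      rw [if_neg h4, zero_mul]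
  refine ⟨h1, fun T hT => ?_, ?_⟩
  · have h6 := (h2 T hT).comp_injective (i := fun 𝔞 : {𝔞 : Ideal (𝓞 F) // PrimeTo S 𝔞} => 𝔞.1)
      Subtype.val_injective
    refine h6.congr fun 𝔞 => ?_
    show ‖c 𝔞.1 * (Pool.Agent.W189.ML.om (lgN 𝔞.1 / T) : ℂ)‖ = _
    rw [e4 T 𝔞.1 𝔞.2]
  · obtain ⟨C, hC⟩ := h3.bound
    refine IsBigO.of_bound C ?_
    filter_upwards [hC, eventually_gt_atTop 0] with T hT hT0
    have hTc : (T : ℂ) ≠ 0 := by exact_mod_cast hT0.ne'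
    have e7 : (T : ℂ) * charSum S A (fun g => τ (χ g)) T +
        Real.eulerMascheroniConstant * deriv L 0 = T *
        ((∑' 𝔞 : Ideal (𝓞 F), c 𝔞 * (Pool.Agent.W189.ML.om (lgN 𝔞 / T) : ℂ)) -
          (L 0 - Real.eulerMascheroniConstant * deriv L 0 / T)) := by
      rw [e5, h0]
      field_simp
      ring
    rw [e7, norm_mul, Complex.norm_real, Real.norm_eq_abs, abs_of_pos hT0]
    rw [Real.norm_eq_abs (1 / T ^ 2), abs_of_pos (by positivity : 0 < 1 / T ^ 2)] at hT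
    rw [Real.norm_eq_abs (1 / T), abs_of_pos (by positivity : 0 < 1 / T)]
    calc T * _ ≤ T * (C * (1 / T ^ 2)) := mul_le_mul_of_nonneg_left hT hT0.le
      _ = C * (1 / T) := by field_simp

/-- The hypotheses on `χ` and on the `L`-functions `L τ` of its conjugates `χ^τ`; `ι` is the given embedding of
`k = ℚ(χ)`. -/
structure IsCharacter {k : Type} [Field k] (S : Finset (Place F)) (v₂ : InfinitePlace F)
    (A : Ideal (𝓞 F) → (K ≃ₐ[F] K)) (ι : k →+* ℂ) (χ : (K ≃ₐ[F] K) →* k)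
    (L : (k →+* ℂ) → ℂ → ℂ) : Prop where
  gen : Subfield.closure (Set.range χ) = ⊤
  mixed : MixedSignature v₂ χ
  fn : ∀ τ : k →+* ℂ, IsLFunction S A (fun g => τ (χ g)) (L τ)
  zero : ∀ τ : k →+* ℂ, L τ 0 = 0
  simple : deriv (L ι) 0 ≠ 0

variable (F K) in
/-- The data of the conjecture: `F`, `K`, `S`, the places, the Artin map `A`, the field `k = ℚ(χ)` embedded by `ι`, the
character `χ` and the `L`-functions `L τ` of its conjugates `χ^τ`. -/
structure Setting (k : Type) [Field k] where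
  S : Finset (Place F)
  v₁ : InfinitePlace F
  v₂ : InfinitePlace F
  v : InfinitePlace K
  data : IsData S v₁ v₂ v
  A : Ideal (𝓞 F) → (K ≃ₐ[F] K)
  artin : IsArtinMap S A
  ι : k →+* ℂ
  χ : (K ≃ₐ[F] K) →* k
  L : (k →+* ℂ) → ℂ → ℂ
  char : IsCharacter S v₂ A ι χ L

namespace Setting

variable {k : Type} [Field k] (D : Setting F K k)

/-- `x_N = ∑_𝔞 ρ_N(N 𝔞) χ(σ_𝔞)`, an element of `k` -/
noncomputable def x (ρ : ℕ → ℕ →₀ ℚ) (N : ℕ) : k := approx D.S D.A D.χ (ρ N)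

/-- `T ∑_𝔞 χ^τ(σ_𝔞) / Γ(1 + log N(𝔞) / T)` -/
noncomputable def sum (τ : k →+* ℂ) (T : ℝ) : ℂ := T * charSum D.S D.A (fun g => τ (D.χ g)) T

/-- The terms of the last sum. -/
noncomputable def trm (τ : k →+* ℂ) (T : ℝ) (𝔞 : {𝔞 : Ideal (𝓞 F) // PrimeTo D.S 𝔞}) : ℂ :=
  term D.A (fun g => τ (D.χ g)) T 𝔞.1

/-- `L_S'(χ^τ, 0)` -/
noncomputable def der (τ : k →+* ℂ) : ℂ := deriv (D.L τ) 0

/-- `log |u|_v` for `u ∈ k ⊗ K^×` -/
noncomputable def log (u : KT k K) : ℂ := logT D.ι D.v u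

/-- `L_S'(χ, 0) = log |u|_v` -/
def Identity (u : KT k K) : Prop := D.der D.ι = D.log u

/-- `x_N → log |u|_v` -/
def WeightLimit (ρ : ℕ → ℕ →₀ ℚ) (u : KT k K) : Prop :=
  Tendsto (fun N : ℕ => D.ι (D.x ρ N)) atTop (𝓝 (D.log u))

/-- `T ∑_𝔞 χ(σ_𝔞) / Γ(1 + log N(𝔞) / T) → -γ_E log |u|_v` -/
def SumLimit (u : KT k K) : Prop :=
  Tendsto (D.sum D.ι) atTop (𝓝 (-(Real.eulerMascheroniConstant * D.log u)))

/-- Some `u` in `(k ⊗ U_{v,S})^{χ^{-1}}` has the property `P`. -/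
def Has (P : KT k K → Prop) : Prop := ∃ u ∈ Eigen D.S D.v₁ D.v₂ D.χ, P u

end Setting

end

/-- **Mixed signature characters and sums over ideals.** -/
theorem result :
    -- 0. the weights exist
    ((∀ γ : ℝ, Ck 1 γ ≠ 0) ∧ ∀ γ : ℝ, ∃ ρ, IsRational 1 γ ρ) ∧
    ∀ γ : ℝ, Real.pi / 2 < γ → ∀ ρ : ℕ → ℕ →₀ ℚ, IsRational 1 γ ρ →
    ∀ (F K : Type) [Field F] [NumberField F] [Field K] [NumberField K] [Algebra F K]
      [IsGalois F K], (∀ σ τ : K ≃ₐ[F] K, σ * τ = τ * σ) →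
    ∀ (k : Type) [Field k] [CharZero k] (D : Setting F K k),
    -- 1. rational weights
    (∀ τ, (fun N : ℕ => τ (D.x ρ N) - D.der τ) =O[atTop] (fun N : ℕ => 1 / (N : ℝ))) ∧
    -- 2. unrotated sums
    (∀ τ, (∀ T : ℝ, 0 < T → Summable fun 𝔞 => ‖D.trm τ T 𝔞‖) ∧
      (fun T : ℝ => D.sum τ T + Real.eulerMascheroniConstant * D.der τ) =O[atTop]
        (fun T : ℝ => 1 / T)) ∧
    -- 3. the identity
    (∀ u : KT k K, (D.Identity u ↔ D.WeightLimit ρ u) ∧ (D.Identity u ↔ D.SumLimit u)) ∧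
    -- 4. the conjecture
    (D.Has D.Identity ↔ D.Has (D.WeightLimit ρ)) ∧ (D.Has D.Identity ↔ D.Has D.SumLimit) := by
  refine ⟨⟨Ck_one_ne, fun γ => exists_rational 1 γ⟩, ?_⟩
  intro γ hγ ρ hρ F K _ _ _ _ _ _ _hab k _ _ D
  have hfin : Finite (K ≃ₐ[F] K) := by
    have : Module.Finite F K := Module.Finite.of_restrictScalars_finite ℚ F K
    infer_instance
  have hmain := fun τ => main hfin hγ hρ (fun g => D.χ g) τ (D.char.fn τ) (D.char.zero τ)
  have hE : (Real.eulerMascheroniConstant : ℂ) ≠ 0 := by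
    have := Real.one_half_lt_eulerMascheroniConstant
    have h0 : Real.eulerMascheroniConstant ≠ 0 := by
      intro h0
      rw [h0] at this
      norm_num at this
    exact_mod_cast h0
  have hlim1 : Tendsto (fun N : ℕ => D.ι (D.x ρ N)) atTop (𝓝 (D.der D.ι)) := by
    have h1 := (hmain D.ι).1.trans_tendsto tendsto_one_div_atTop_nhds_zero_nat
    have h2 := h1.add_const (D.der D.ι)
    rw [zero_add] at h2
    exact h2.congr fun N => sub_add_cancel _ _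
  have hlim2 : Tendsto (D.sum D.ι) atTop
      (𝓝 (-(Real.eulerMascheroniConstant * D.der D.ι))) := by
    have h1 := (hmain D.ι).2.2.trans_tendsto (tendsto_const_nhds.div_atTop tendsto_id)
    have h2 := h1.add_const (-(Real.eulerMascheroniConstant * D.der D.ι))
    rw [zero_add] at h2
    exact h2.congr fun T => add_neg_cancel_right _ _
  have h3 : ∀ u : KT k K, (D.Identity u ↔ D.WeightLimit ρ u) ∧ (D.Identity u ↔ D.SumLimit u) := by
    intro u
    unfold Setting.Identity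
    refine ⟨⟨fun h => ?_, fun h => tendsto_nhds_unique hlim1 h⟩,
      ⟨fun h => ?_, fun h => ?_⟩⟩
    · unfold Setting.WeightLimit
      rw [← h]
      exact hlim1
    · unfold Setting.SumLimit
      rw [← h]
      exact hlim2
    · have h4 := tendsto_nhds_unique hlim2 h
      exact mul_left_cancel₀ hE (neg_injective h4)
  exact ⟨fun τ => (hmain τ).1, fun τ => (hmain τ).2, h3,
    exists_congr fun u => and_congr_right fun _ => (h3 u).1,
    exists_congr fun u => and_congr_right fun _ => (h3 u).2⟩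

end Pool.Agent.Results.MP_c49e96_nt.CharacterSumsOverIdeals
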