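import Pool.Agent.X287.STV

/-!
# The rational rank one Stark conjecture for a single character

`F` is a number field (here called `K`), `𝔪 ≠ (0), (1)` an ideal, `R` a set of real places with
`#R + #(complex places) = 1`, for example `F` real quadratic and `R = {v_1}` (mixed signature); `G` is a finite abelian
group and `c` a map from the ideals to `G`, multiplicative on the ideals prime to `𝔪` and trivial on the `(x)` with `x ≡ 1` modulo `𝔪`,
`x` positive at the real places outside `R` (the Artin symbol of an abelian extension `H/F` in which `v_1` stays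
real, by Artin's reciprocity law; `S` = the archimedean places and the primes dividing `𝔪`). Let `χ` be a
character of `G`, `L_S(s, χ) = ∏_{v ∤ 𝔪} (1 - χ(c(v)) Nv^{-s})⁻¹` and for a fixed `γ > π/2`

`S_χ(T) = ∑_{v ∤ 𝔪} ∑_{k ≥ 1} χ(c(v))^k exp(iγ k log Nv / T) / (k Γ(1 + k log Nv / T))`.

UNCONDITIONALLY:

1. `L_S(s, χ)` continues uniquely to a function analytic on `ℂ - {1}`, meromorphic at `1`, the sums converge absolutely,
   `L_S(0, χ) = 0` and `θ_T = T e^{-Λ(γ)} exp(S_χ(T)) = L_S'(0, χ) + O(1/T)`.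
2. Let `H` be a number field with an action of `G`, `w` an archimedean place of `H`, `U = U_{v,S}` the group of the
   units of `H` of absolute value `1` at all the archimedean places not conjugate to `w`, and
   `Reg_u(χ) = ∑_g χ(g) log |g(u)|_w`. Let `u₀ ∈ U` with `Reg_{u₀}(χ) ≠ 0`. Then the following are equivalent:
   (a) Q1 for `χ`: `L_S'(0, χ) = ∑_j a_j Reg_{u_j}(χ)` for some `a_j ∈ ℚ(χ)`, `u_j ∈ U` (this is `log |x|_w` for the element
       `x = ∑_j ∑_g a_j χ(g) ⊗ g(u_j)` of `(ℚ(χ) ⊗ U)^{χ⁻¹}`, and all elements are of this form);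
   (b) `L_S'(0, χ) / Reg_{u₀}(χ) ∈ ℚ(χ)`;
   (c) there are `N ≥ 1` and `B` such that for arbitrarily large `T` the number `N θ_T / Reg_{u₀}(χ)` comes arbitrarily close to
       elements `∑_g n(g) χ(g)` with integers `|n(g)| ≤ B`;
   (d) for some `N ≥ 1` and `n(g) ∈ ℤ`: `N θ_T / Reg_{u₀}(χ) = ∑_g n(g) χ(g) + O(1/T)`;
   and, if the order of `χ` divides `4` or `6`, to (c) without the bound `B`.

The proof of (a) ⟹ (b) uses that the quotients `Reg_u(χ) / Reg_{u₀}(χ)` lie in `ℚ(χ)`, which is derived from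
Dirichlet's unit theorem.
-/

set_option autoImplicit false
set_option linter.unusedSectionVars false

open Filter Topology Asymptotics
open IsDedekindDomain NumberField

namespace Pool.Agent.Results.MP_c49e96_nt.SingleCharacter

section defs
variable {K : Type} [Field K] [NumberField K] {G : Type} [CommGroup G] [Fintype G]

/-- `c` is multiplicative on the ideals prime to `𝔪`, and trivial on the ideals `(x)` with `x ≡ 1` modulo `𝔪` and
`x` positive at the real places outside `R`. -/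
structure IsClassMap (𝔪 : Ideal (𝓞 K)) (R : Finset (K →+* ℝ)) (c : Ideal (𝓞 K) → G) : Prop where
  mul : ∀ I J : Ideal (𝓞 K), IsCoprime I 𝔪 → IsCoprime J 𝔪 → c (I * J) = c I * c J
  ray : ∀ x : 𝓞 K, x ≠ 0 → x - 1 ∈ 𝔪 → (∀ τ : K →+* ℝ, τ ∉ R → 0 < τ (x : K)) → c (Ideal.span {x}) = 1

/-- The primes which do not divide `𝔪`. -/
abbrev Places (𝔪 : Ideal (𝓞 K)) : Type := {v : HeightOneSpectrum (𝓞 K) // IsCoprime v.asIdeal 𝔪}

/-- The complex characters of the finite abelian group `G`. -/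
abbrev Character (G : Type) [CommGroup G] : Type := AddChar (Additive G) ℂ

/-- The value `χ(g)`. -/
def value (χ : Character G) (g : G) : ℂ := χ (Additive.ofMul g)

/-- `Λ` is the function `L_S(s, χ)`, continued to `ℂ - {1}` and meromorphic at `1`. -/
structure IsL (𝔪 : Ideal (𝓞 K)) (c : Ideal (𝓞 K) → G) (χ : Character G) (Λ : ℂ → ℂ) : Prop where
  prod : ∀ s : ℂ, 1 < s.re → HasProd (fun v : Places 𝔪 =>
    (1 - value χ (c v.1.asIdeal) * ((Ideal.absNorm v.1.asIdeal : ℕ) : ℂ) ^ (-s))⁻¹) (Λ s)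
  analytic : ∀ s : ℂ, s ≠ 1 → AnalyticAt ℂ Λ s
  mero : MeromorphicAt Λ 1

/-- The term of the prime `v = x.1` and the exponent `k = x.2 + 1` in `S_χ(T)`. -/
noncomputable def term (𝔪 : Ideal (𝓞 K)) (c : Ideal (𝓞 K) → G) (γ T : ℝ) (χ : Character G)
    (x : Places 𝔪 × ℕ) : ℂ :=
  value χ (c x.1.1.asIdeal) ^ (x.2 + 1) *
      Complex.exp ((γ * ((x.2 + 1) * Real.log (Ideal.absNorm x.1.1.asIdeal : ℕ) / T) : ℝ) * Complex.I) /
    (((x.2 + 1) * Real.Gamma (1 + (x.2 + 1) * Real.log (Ideal.absNorm x.1.1.asIdeal : ℕ) / T) : ℝ) : ℂ)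

/-- The sum `S_χ(T)`. -/
noncomputable def charSum (𝔪 : Ideal (𝓞 K)) (c : Ideal (𝓞 K) → G) (γ T : ℝ) (χ : Character G) : ℂ :=
  ∑' x, term 𝔪 c γ T χ x

/-- The constant `Λ(γ) = ∫_0^∞ (e^{-t} - e^{iγt} / Γ(1 + t)) dt / t`. -/
noncomputable def Lambda (γ : ℝ) : ℂ := ∫ t in Set.Ioi (0 : ℝ),
  (Complex.exp (-(t : ℂ)) - Complex.exp ((γ * t : ℝ) * Complex.I) * ((Real.Gamma (1 + t))⁻¹ : ℝ)) / t

/-- `θ_T = T e^{-Λ(γ)} exp(S_χ(T))`. -/
noncomputable def approx (𝔪 : Ideal (𝓞 K)) (c : Ideal (𝓞 K) → G) (γ T : ℝ) (χ : Character G) : ℂ :=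
  (T : ℂ) * Complex.exp (-Lambda γ) * Complex.exp (charSum 𝔪 c γ T χ)

/-- The field `ℚ(χ)` generated by the values of `χ`. -/
noncomputable def valueField (χ : Character G) : IntermediateField ℚ ℂ :=
  IntermediateField.adjoin ℚ (Set.range (value χ))

variable {H : Type} [Field H] [NumberField H]

/-- The logarithm of the normalised absolute value. -/
noncomputable def logAbs (v : InfinitePlace H) (x : H) : ℝ := v.mult * Real.log (v x)

/-- `u ∈ U`: `u` has absolute value `1` at all the archimedean places not conjugate to `w`. -/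
def IsSpecial (ρ : G →* (H ≃+* H)) (w : InfinitePlace H) (u : (𝓞 H)ˣ) : Prop :=
  ∀ v : InfinitePlace H, (∀ g, v ≠ w.comap (ρ g : H →+* H)) → v (u : H) = 1

/-- `Reg_u(χ) = ∑_g χ(g) log |g(u)|_w`. -/
noncomputable def regulator (ρ : G →* (H ≃+* H)) (w : InfinitePlace H) (u : (𝓞 H)ˣ) (χ : Character G) : ℂ :=
  ∑ g : G, value χ g * (logAbs w (ρ g (u : H)) : ℂ)

/-- Q1 for the character `χ` and the number `θ = L_S'(0, χ)`: there are `a_j ∈ ℚ(χ)` and `u_j ∈ U` with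
`θ = log |x|_w` for the element `x = ∑_j ∑_g a_j χ(g) ⊗ g(u_j)` of `(ℚ(χ) ⊗ U)^{χ⁻¹}` (all the elements of this space
are of this form). -/
def StarkElement (ρ : G →* (H ≃+* H)) (w : InfinitePlace H) (χ : Character G) (θ : ℂ) : Prop :=
  ∃ (m : ℕ) (a : Fin m → ℂ) (u : Fin m → (𝓞 H)ˣ), (∀ j, a j ∈ valueField χ) ∧ (∀ j, IsSpecial ρ w (u j)) ∧
    θ = ∑ j, a j * regulator ρ w (u j) χ

/-- For some `N ≥ 1` and `B`: for arbitrarily large `T`, `N b(T)` is arbitrarily close to some `∑_g n(g) χ(g)` with integers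
`|n(g)| ≤ B`. -/
def BoundedApproach (χ : Character G) (b : ℝ → ℂ) : Prop :=
  ∃ N : ℕ, 1 ≤ N ∧ ∃ B : ℕ, ∀ ε > 0, ∀ T₀ : ℝ, ∃ T ≥ T₀, ∃ n : G → ℤ, (∀ g, |n g| ≤ B) ∧
    ‖N * b T - ∑ g, (n g : ℂ) * value χ g‖ < ε

/-- For some `N ≥ 1`: for arbitrarily large `T`, `N b(T)` is arbitrarily close to some `∑_g n(g) χ(g)` with integers
`n(g)`. -/
def FreeApproach (χ : Character G) (b : ℝ → ℂ) : Prop :=
  ∃ N : ℕ, 1 ≤ N ∧ ∀ ε > 0, ∀ T₀ : ℝ, ∃ T ≥ T₀, ∃ n : G → ℤ,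
    ‖N * b T - ∑ g, (n g : ℂ) * value χ g‖ < ε

/-- For some `N ≥ 1` and integers `n(g)`: `N b(T) = ∑_g n(g) χ(g) + O(1/T)`. -/
def FixedApproach (χ : Character G) (b : ℝ → ℂ) : Prop :=
  ∃ N : ℕ, 1 ≤ N ∧ ∃ n : G → ℤ,
    (fun T : ℝ => N * b T - ∑ g, (n g : ℂ) * value χ g) =O[atTop] (fun T : ℝ => 1 / T)

/-- `L_S(s, χ)` continues, uniquely, and the sums `S_χ(T)` converge absolutely. -/
def Continues (𝔪 : Ideal (𝓞 K)) (c : Ideal (𝓞 K) → G) (γ : ℝ) (χ : Character G) : Prop :=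
  (∃ Λ, IsL 𝔪 c χ Λ) ∧
  (∀ Λ Λ' : ℂ → ℂ, IsL 𝔪 c χ Λ → IsL 𝔪 c χ Λ' → ∀ s, s ≠ 1 → Λ s = Λ' s) ∧
  ∀ T : ℝ, 0 < T → Summable fun x => ‖term 𝔪 c γ T χ x‖

/-- With `reg = Reg_{u₀}(χ)` and `b(T)` the approximations to `θ = L_S'(0, χ)`: Q1 for `χ` holds iff `θ / reg ∈ ℚ(χ)`,
iff `b(T) / reg` has a bounded approach, iff it has a fixed approach, and, if the values of `χ` are fourth or sixth roots of unity, iff it
has a free approach. -/
def Criterion (ρ : G →* (H ≃+* H)) (w : InfinitePlace H) (χ : Character G) (θ reg : ℂ) (b : ℝ → ℂ) : Prop :=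
  (StarkElement ρ w χ θ ↔ θ / reg ∈ valueField χ) ∧
  (StarkElement ρ w χ θ ↔ BoundedApproach χ fun T => b T / reg) ∧
  (StarkElement ρ w χ θ ↔ FixedApproach χ fun T => b T / reg) ∧
  (((∀ g, value χ g ^ 4 = 1) ∨ ∀ g, value χ g ^ 6 = 1) →
    (StarkElement ρ w χ θ ↔ FreeApproach χ fun T => b T / reg))

end defs

section aux
open Pool.Agent.X287.ST

variable {G : Type} [CommGroup G] [Fintype G] {H : Type} [Field H] [NumberField H]
variable {ρ : G →* (H ≃+* H)} {w : InfinitePlace H} {χ : Character G}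

theorem sp_iff (u : (𝓞 H)ˣ) : IsSpecial ρ w u ↔ Sp ρ (fun _ : Fin 1 => w) u :=
  ⟨fun h v hv => h v fun g => hv 0 g, fun h v hv => h v fun _ g => hv g⟩

/-- **Q1 for `χ` as membership in the field of values** -/
theorem stark_iff (u₀ : (𝓞 H)ˣ) (hu₀ : IsSpecial ρ w u₀) (h0 : regulator ρ w u₀ χ ≠ 0) (θ : ℂ) :
    StarkElement ρ w χ θ ↔ θ / regulator ρ w u₀ χ ∈ valueField χ := by
  constructor
  · rintro ⟨m, a, u, ha, hu, rfl⟩
    rw [Finset.sum_div]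
    refine (valueField χ).sum_mem fun j _ => ?_
    rw [mul_div_assoc]
    exact (valueField χ).mul_mem (ha j) (quot_mem ((sp_iff _).1 (hu j)) ((sp_iff _).1 hu₀) h0)
  · intro h
    refine ⟨1, fun _ => θ / regulator ρ w u₀ χ, fun _ => u₀, fun _ => h, fun _ => hu₀, ?_⟩
    rw [Finset.univ_unique, Finset.sum_singleton, div_mul_cancel₀ _ h0]

end aux

open Pool.Agent.X287.ST Pool.Agent.X287.CR in
/-- **The rational rank one Stark conjecture for a single character.** -/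
theorem result (K : Type) [Field K] [NumberField K] (𝔪 : Ideal (𝓞 K)) (h0 : 𝔪 ≠ ⊥) (h1 : 𝔪 ≠ ⊤)
    (R : Finset (K →+* ℝ)) (hR : R.card + InfinitePlace.nrComplexPlaces K = 1)
    (G : Type) [CommGroup G] [Fintype G] (c : Ideal (𝓞 K) → G) (hc : IsClassMap 𝔪 R c)
    (γ : ℝ) (hγ : Real.pi / 2 < γ) (χ : Character G) :
    Continues 𝔪 c γ χ ∧
    ∀ Λ : ℂ → ℂ, IsL 𝔪 c χ Λ →
      Λ 0 = 0 ∧ (fun T : ℝ => approx 𝔪 c γ T χ - deriv Λ 0) =O[atTop] (fun T : ℝ => 1 / T) ∧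
      ∀ (H : Type) [Field H] [NumberField H] (ρ : G →* (H ≃+* H)) (w : InfinitePlace H)
        (u₀ : (𝓞 H)ˣ), IsSpecial ρ w u₀ → regulator ρ w u₀ χ ≠ 0 →
        Criterion ρ w χ (deriv Λ 0) (regulator ρ w u₀ χ) (fun T => approx 𝔪 c γ T χ) := by
  classical
  have hcc : IsClassMapR 𝔪 R c := ⟨hc.mul, fun x hx0 hx1 hx2 => hc.ray x hx0 hx1 fun σ => hx2 σ⟩
  have hL : ∀ Λ : ℂ → ℂ, IsL 𝔪 c χ Λ ↔ IsLc 𝔪 c χ Λ := fun Λ =>
    ⟨fun h => ⟨h.prod, h.analytic, h.mero⟩, fun h => ⟨h.prod, h.an, h.mer⟩⟩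
  refine ⟨⟨?_, fun Λ Λ' h h' s hs => Lc_unique ((hL Λ).1 h) ((hL Λ').1 h') hs,
    fun T hT => ct_summable γ hT χ⟩, fun Λ hΛ => ?_⟩
  · obtain ⟨Λ, h, -⟩ := exists_Lc h1 h0 hcc χ
    exact ⟨Λ, (hL Λ).2 h⟩
  obtain ⟨θ, hθ1, hθ2⟩ := Lc_lim h1 h0 hcc ((hL _).1 hΛ) hγ
  rw [hR] at hθ1 hθ2
  simp only [pow_one] at hθ1 hθ2
  obtain ⟨hz, hd⟩ := deriv_one (hΛ.analytic 0 (by norm_num)) hθ1
  have hA : (fun T : ℝ => approx 𝔪 c γ T χ - deriv Λ 0) =O[atTop] (fun T : ℝ => 1 / T) := by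
    rw [hd]
    exact hθ2
  refine ⟨hz, hA, ?_⟩
  intro H _ _ ρ w u₀ hu₀ hreg
  have hrate : (fun T : ℝ => approx 𝔪 c γ T χ / regulator ρ w u₀ χ - deriv Λ 0 / regulator ρ w u₀ χ)
      =O[atTop] (fun T : ℝ => 1 / T) := by
    refine (hA.const_mul_left (regulator ρ w u₀ χ)⁻¹).congr_left fun T => ?_
    ring
  have hs := stark_iff u₀ hu₀ hreg (deriv Λ 0)
  have hb := bdd_iff (χ := χ) hrate
  exact ⟨hs, hs.trans hb.1, hs.trans hb.2, fun hsm => hs.trans (small_iff hsm hrate)⟩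

end Pool.Agent.Results.MP_c49e96_nt.SingleCharacter
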